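import Pool.Agent.LibRac44.Core

/-! Rational coordinates for 1-planar right-angle crossing drawings. -/

namespace Pool.Agent.Results.MP_c2563b_lc.RationalDrawings

open Pool.Agent.LibRac44

universe u

/-- Let `p` be a 1-planar RAC-drawing of the finite graph `G`. Suppose that one of the following
holds.
(a) The vertices are in strictly convex position.
(b) There are a set `S₀` of vertices and a colouring such that at every crossing with all four ends
in `S₀` one edge has two red ends and the other one two ends that are not red, and every set `S` of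
vertices that is not contained in `S₀` has a vertex outside `S₀` with at most two edges taking part
in crossings with all four ends in `S`, not on a line if there are two. (For `S₀` the set of all
vertices the second condition is empty, for `S₀` empty the first one.)
(c) There are levels and a colouring such that the crossings with all four ends of level zero are
coloured as in (b), any other two crossing edges have different levels, and for `n ≥ 1` the edges of
level `n` that are crossed by an edge of smaller level carry no self-stress.
Then there are 1-planar RAC-drawings of `G` with rational coordinates arbitrarily close to `p`, with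
the same pairs of crossing edges, and there is one with integer coordinates. -/
theorem result {V : Type u} [Fintype V] (G : SimpleGraph V) (p : V → ℝ × ℝ) (hp : IsRac1 G p)
    (h : (∃ o : V → ℕ, ConvexPos p o) ∨
      (∃ (S₀ : Set V) (red : V → Prop),
        (∀ a b c d, Cross G p a b c d → a ∈ S₀ → b ∈ S₀ → c ∈ S₀ → d ∈ S₀ → RB red a b c d) ∧
        ∀ S : Set V, ¬ S ⊆ S₀ → ∃ v ∈ S, v ∉ S₀ ∧ Low G p S v) ∨
      ∃ (r : V → ℕ) (red : V → Prop),
        (∀ a b c d, Cross G p a b c d → r a = 0 → r b = 0 → r c = 0 → r d = 0 → RB red a b c d) ∧
        (∀ a b c d, Cross G p a b c d → 0 < max (r a) (r b) → max (r a) (r b) ≠ max (r c) (r d)) ∧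
        ∀ n, 1 ≤ n → StressFree G p r n) :
    (∀ ε : ℝ, 0 < ε → ∃ q : V → ℚ × ℚ, IsRac1 G (fun v => cst (q v)) ∧ (∀ v, dist (cst (q v)) (p v) < ε) ∧
      ∀ a b c d, Cross G (fun v => cst (q v)) a b c d ↔ Cross G p a b c d) ∧
    ∃ g : V → ℤ × ℤ, IsRac1 G (fun v => (((g v).1 : ℝ), ((g v).2 : ℝ))) := by
  have h1 : ∀ ε : ℝ, 0 < ε → ∃ q : V → ℚ × ℚ, IsRac1 G (fun v => cst (q v)) ∧
      (∀ v, dist (cst (q v)) (p v) < ε) ∧
      ∀ a b c d, Cross G (fun v => cst (q v)) a b c d ↔ Cross G p a b c d := by
    intro ε hε
    rcases h with ⟨o, ho⟩ | ⟨S₀, red, h0, hS⟩ | ⟨r, red, h0, hr, hs⟩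
    · exact rational_low hp (fun S hS => low_of_convex hp ho S hS) hε
    · exact rational_low_core hp S₀ red h0 hS hε
    · exact rational_core hp r red h0 hr hs hε
  refine ⟨h1, ?_⟩
  obtain ⟨q, hq, -, -⟩ := h1 1 one_pos
  exact exists_grid q hq

end Pool.Agent.Results.MP_c2563b_lc.RationalDrawings
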